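import Mathlib
import Pool.Agent.KS6_3.ZL.H707R3.Core
import Pool.Agent.KS6_3.ZL.H707R3.TowerL
import Pool.Agent.KS6_3.ZL.H387R3.ZT.Alg

/-!
The field generated by the reciprocal roots of an Euler product with `p`-adic exponents is almost as
large as the field of `p ^ n`-th roots of unity: adjoining these roots of unity gives an extension of
bounded degree.
-/

set_option autoImplicit false

open PowerSeries IntermediateField
open scoped PowerSeries.WithPiTopology

namespace Pool.Agent.W90.ZT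

open Pool.Agent.H707R3

variable {p : ℕ} [Fact p.Prime]

/-- The field obtained from `K` by adjoining all `p ^ n`-th roots of unity. -/
lemma adjoin_roots_eq (K : IntermediateField ℚ_[p] ℂ_[p]) {n : ℕ} {z : ℂ_[p]}
    (hz : IsPrimitiveRoot z (p ^ n)) :
    IntermediateField.adjoin K {w : ℂ_[p] | w ^ p ^ n = 1} = K⟮z⟯ := by
  have hp : p.Prime := Fact.out
  have hne : NeZero (p ^ n) := ⟨pow_ne_zero _ hp.ne_zero⟩
  apply le_antisymm
  · rw [IntermediateField.adjoin_le_iff]
    intro w hw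
    obtain ⟨i, _, rfl⟩ := hz.eq_pow_of_pow_eq_one hw
    exact pow_mem (IntermediateField.mem_adjoin_simple_self K z) i
  · apply IntermediateField.adjoin.mono
    intro w hw
    rw [Set.mem_singleton_iff] at hw
    rw [hw]
    exact hz.pow_eq_one

theorem core_bdd {ι : Type*} [Nonempty ι] (ρ : ι → ℤ_[p]) (d : ι → ℕ) (hd : ∀ v, d v ≠ 0)
    (hfin : ∀ k, {v | d v ≤ k}.Finite) :
    ∃ D : ℕ, 0 < D ∧ ∃ N : ℕ, ∀ n, N ≤ n → ∀ z : ℂ_[p], IsPrimitiveRoot z (p ^ n) →
      ∀ A : Multiset ℂ_[p], eulerL ρ d n z = recipProd A →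
        ∀ K : IntermediateField ℚ_[p] ℂ_[p], genField A ≤ K →
          FiniteDimensional K K⟮z⟯ ∧ Module.finrank K K⟮z⟯ ≤ D := by
  classical
  have hp : p.Prime := Fact.out
  by_cases hρ : ∃ v, ρ v ≠ 0
  · obtain ⟨v₀, hv₀⟩ := hρ
    set k := d v₀ with hk
    set M : ℤ_[p] →₀ ℕ := (theta ρ d (hfin k).toFinset k).coeff with hM
    have hb₀ : ρ v₀ ∈ M.support :=
      mem_support_theta ρ d _ (by simp [hk]) (hd v₀)
    obtain ⟨N, hN⟩ := exists_distinct M.support
    refine ⟨M.support.card * p ^ (ρ v₀).valuation, ?_, N + 1, ?_⟩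
    · apply Nat.mul_pos
      · exact Finset.card_pos.2 ⟨_, hb₀⟩
      · exact pow_pos hp.pos _
    · intro n hn z hz A hA K hK
      obtain ⟨n, rfl⟩ : ∃ m, n = m + 1 := ⟨n - 1, by omega⟩
      have hz1 : z ^ p ^ (n + 1) = 1 := hz.pow_eq_one
      have hcoeff := coeff_eulerL ρ d hd hfin hz1
      have hmem : evSum (n + 1) M z ∈ K := by
        apply hK
        rw [hM, ← hcoeff, hA]
        exact coeff_recipProd_mem _ A (fun α hα => IntermediateField.subset_adjoin _ _ hα) k
      have hdist := hN n (by omega)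
      exact finrank_adjoin_le K hz M hdist hb₀ hv₀ hmem
  · push Not at hρ
    refine ⟨1, one_pos, 0, ?_⟩
    intro n _ z hz A hA
    exfalso
    obtain ⟨v₀⟩ := (inferInstance : Nonempty ι)
    set k := (Multiset.card A + 1) * d v₀ with hk
    have hkA : Multiset.card A < k := by
      have : 1 ≤ d v₀ := Nat.pos_of_ne_zero (hd v₀)
      calc Multiset.card A < Multiset.card A + 1 := Nat.lt_succ_self _
        _ ≤ (Multiset.card A + 1) * d v₀ := Nat.le_mul_of_pos_right _ this
    have h0 := coeff_recipProd_eq_zero A k hkA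
    have hfun : (fun v => (1 - C (z ^ res n (ρ v)) * X ^ d v : PowerSeries ℂ_[p])⁻¹) =
        fun v => geom (1 : ℂ_[p]) (d v) := by
      funext v
      rw [inv_eq_geom _ (hd v), hρ v]
      simp [res]
    rw [← hA, eulerL, hfun, coeff_tprod_geom (fun _ => (1 : ℂ_[p])) d hfin k] at h0
    have hmap : (∏ v ∈ (hfin k).toFinset, geom (1 : ℂ_[p]) (d v)) =
        PowerSeries.map (Nat.castRingHom ℂ_[p]) (∏ v ∈ (hfin k).toFinset, geom (1 : ℕ) (d v)) := by
      rw [map_prod (PowerSeries.map (Nat.castRingHom ℂ_[p]))]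
      refine Finset.prod_congr rfl fun v _ => ?_
      rw [map_geom, map_one]
    rw [hmap, coeff_map] at h0
    have h1 : coeff k (∏ v ∈ (hfin k).toFinset, geom (1 : ℕ) (d v)) = 0 := by
      have : ((coeff k (∏ v ∈ (hfin k).toFinset, geom (1 : ℕ) (d v)) : ℕ) : ℂ_[p]) = 0 := h0
      exact_mod_cast this
    have hv₀ : v₀ ∈ (hfin k).toFinset := by
      simp only [Set.Finite.mem_toFinset, Set.mem_ofPred_eq, hk]
      exact Nat.le_mul_of_pos_left _ (Nat.succ_pos _)
    have h2 := le_coeff_prod (AddMonoidHom.id ℕ) (hfin k).toFinset (fun v => geom (1 : ℕ) (d v))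
      (fun i _ => coeff_zero_geom _ _) hv₀ k
    simp only [AddMonoidHom.id_apply] at h2
    rw [h1, coeff_geom, if_pos (Dvd.intro_left _ hk.symm), one_pow] at h2
    omega

/-- tower version -/
theorem tower_bdd (k : Type*) {F E : Type*} [Field k] [Field F] [Algebra k F]
    [Field E] [Algebra F E] [Finite k] [Algebra k E] (h : IsZpTower k F E p) :
    ∃ D : ℕ, 0 < D ∧ ∃ N : ℕ, ∀ n, N ≤ n → ∀ χ : (E ≃ₐ[F] E) →* ℂ_[p]ˣ, orderOf χ = p ^ n →
      ∀ A : Multiset ℂ_[p], Lfun k χ = recipProd A →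
        ∀ K : IntermediateField ℚ_[p] ℂ_[p], genField A ≤ K →
          FiniteDimensional K (IntermediateField.adjoin K {w : ℂ_[p] | w ^ p ^ n = 1}) ∧
          Module.finrank K (IntermediateField.adjoin K {w : ℂ_[p] | w ^ p ^ n = 1}) ≤ D := by
  obtain ⟨Φ⟩ := h.group
  let ι := {v : Place k F // v.IsUnramified E}
  have hne : Nonempty ι := by
    have h1 : Infinite (Place k F) := infinite_place h.base
    have h2 : ({v : Place k F | ¬ v.IsUnramified E}ᶜ).Nonempty :=
      (Set.Finite.infinite_compl h.finite_ramified).nonempty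
    obtain ⟨v, hv⟩ := h2
    exact ⟨⟨v, not_not.1 hv⟩⟩
  let ρ : ι → ℤ_[p] := fun v => (Φ (v.1.frob E)).toAdd
  let d : ι → ℕ := fun v => v.1.deg
  have hd : ∀ v, d v ≠ 0 := fun v => deg_ne_zero h.base v.1
  have hfin : ∀ m, {v : ι | d v ≤ m}.Finite := by
    intro m
    exact (finite_deg_le h.base m).preimage Subtype.val_injective.injOn
  obtain ⟨D, hD, N, hN⟩ := core_bdd ρ d hd hfin
  refine ⟨D, hD, N, ?_⟩
  intro n hn χ hχ A hA K hK
  obtain ⟨hz, hval⟩ := char_eq Φ.toMulEquiv χ hχ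
  rw [adjoin_roots_eq K hz]
  refine hN n hn _ hz A ?_ K hK
  rw [← hA, Lfun, eulerL]
  congr 1
  funext v
  rw [hval (v.1.frob E)]
  rfl

/-- The general comparison: a field over which the roots of unity of order `p ^ (n + 1)` generate an
extension of degree at most `D < p ^ m` has ramification index divisible by `p ^ (n - m)`, more
precisely `φ(p ^ (n + 1))` divides `r` times the ramification index for some `1 ≤ r ≤ D`. -/
theorem totient_dvd (K : IntermediateField ℚ_[p] ℂ_[p]) {n : ℕ} {D : ℕ}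
    (h1 : FiniteDimensional K (IntermediateField.adjoin K {w : ℂ_[p] | w ^ p ^ (n + 1) = 1}))
    (h2 : Module.finrank K (IntermediateField.adjoin K {w : ℂ_[p] | w ^ p ^ (n + 1) = 1}) ≤ D) :
    ∃ r : ℕ, 0 < r ∧ r ≤ D ∧ Nat.totient (p ^ (n + 1)) ∣ ramIdx K * r := by
  have hp : p.Prime := Fact.out
  obtain ⟨z, hz⟩ : ∃ z : ℂ_[p], IsPrimitiveRoot z (p ^ (n + 1)) := by
    have hne : NeZero (p ^ (n + 1)) := ⟨pow_ne_zero _ hp.ne_zero⟩
    have hne' : NeZero ((p ^ (n + 1) : ℕ) : ℂ_[p]) := ⟨by exact_mod_cast hne.out⟩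
    obtain ⟨z, hz⟩ := IsAlgClosed.exists_root (Polynomial.cyclotomic (p ^ (n + 1)) ℂ_[p])
      (Polynomial.degree_cyclotomic_pos _ _ (Nat.pos_of_ne_zero hne.out)).ne'
    exact ⟨z, Polynomial.isRoot_cyclotomic_iff.1 hz⟩
  rw [adjoin_roots_eq K hz] at h1 h2
  let L : IntermediateField ℚ_[p] ℂ_[p] := K⟮z⟯.restrictScalars ℚ_[p]
  have hKL : K ≤ L := by
    intro x hx
    show x ∈ K⟮z⟯
    exact K⟮z⟯.algebraMap_mem ⟨x, hx⟩
  have hzL : z ∈ L := mem_adjoin_simple_self K z
  obtain ⟨h3, h4⟩ := relIndex_le (depBound_of_finrank K⟮z⟯)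
  have hmul : ramIdx K * (valGroup K).relIndex (valGroup L) = ramIdx L :=
    Subgroup.relIndex_mul_relIndex _ _ _ (valGroup_mono bot_le) (valGroup_mono hKL)
  refine ⟨(valGroup K).relIndex (valGroup L), Nat.pos_of_ne_zero h3, h4.trans h2, ?_⟩
  rw [hmul]
  -- the cyclotomic field inside
  let Q : IntermediateField ℚ_[p] ℂ_[p] := genField {z}
  have hzint : IsIntegral ℚ_[p] z := by
    refine ⟨Polynomial.X ^ p ^ (n + 1) - Polynomial.C 1,
      Polynomial.monic_X_pow_sub_C 1 (pow_pos hp.pos _).ne', ?_⟩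
    simp [hz.pow_eq_one]
  have hint : ∀ α ∈ ({z} : Multiset ℂ_[p]), IsIntegral ℚ_[p] α := by
    intro α hα
    rw [Multiset.mem_singleton] at hα
    rw [hα]; exact hzint
  have hQL : Q ≤ L := by
    show genField {z} ≤ L
    rw [genField, IntermediateField.adjoin_le_iff]
    intro α hα
    have : α = z := by simpa using hα
    rw [this]; exact hzL
  have hQz : z ∈ Q := by
    show z ∈ genField {z}
    exact IntermediateField.subset_adjoin _ _ (by simp)
  have hQ0 : ramIdx Q ≠ 0 := ramIdx_ne_zero {z} hint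
  have hge : Nat.totient (p ^ (n + 1)) ≤ ramIdx Q := totient_le_ramIdx hz hQz hQ0
  have hle : ramIdx Q ≤ Nat.totient (p ^ (n + 1)) := by
    refine (Pool.Agent.H387R3.ZT.ramIdx_le_finrank {z} hint).trans ?_
    have hset : {α : ℂ_[p] | α ∈ ({z} : Multiset ℂ_[p])} = {z} := by
      ext x; simp
    rw [genField, hset, IntermediateField.adjoin.finrank hzint]
    have hdvd : minpoly ℚ_[p] z ∣ Polynomial.cyclotomic (p ^ (n + 1)) ℚ_[p] := by
      apply minpoly.dvd
      rw [Polynomial.aeval_def, Polynomial.eval₂_eq_eval_map, Polynomial.map_cyclotomic]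
      have hne : NeZero ((p ^ (n + 1) : ℕ) : ℂ_[p]) := ⟨by
        exact_mod_cast (pow_ne_zero (n + 1) hp.ne_zero : p ^ (n + 1) ≠ 0)⟩
      exact (Polynomial.isRoot_cyclotomic_iff.2 hz)
    have := Polynomial.natDegree_le_of_dvd hdvd (Polynomial.cyclotomic_ne_zero _ _)
    rwa [Polynomial.natDegree_cyclotomic] at this
  have heq : ramIdx Q = Nat.totient (p ^ (n + 1)) := le_antisymm hle hge
  have hmul2 : ramIdx Q * (valGroup Q).relIndex (valGroup L) = ramIdx L :=
    Subgroup.relIndex_mul_relIndex _ _ _ (valGroup_mono bot_le) (valGroup_mono hQL)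
  rw [← hmul2, heq]
  exact dvd_mul_right _ _

/-- The ramification index is divisible by a large power of `p`. -/
theorem pow_dvd_ramIdx (K : IntermediateField ℚ_[p] ℂ_[p]) (hK0 : ramIdx K ≠ 0) {n : ℕ} {D : ℕ}
    (h1 : FiniteDimensional K (IntermediateField.adjoin K {w : ℂ_[p] | w ^ p ^ (n + 1) = 1}))
    (h2 : Module.finrank K (IntermediateField.adjoin K {w : ℂ_[p] | w ^ p ^ (n + 1) = 1}) ≤ D)
    {m : ℕ} (hm : D < p ^ m) : p ^ (n - m) ∣ ramIdx K := by
  have hp : p.Prime := Fact.out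
  obtain ⟨r, hr0, hrD, hdvd⟩ := totient_dvd K h1 h2
  rw [Nat.totient_prime_pow_succ hp] at hdvd
  have h3 : p ^ n ∣ ramIdx K * r := (dvd_mul_right _ _).trans hdvd
  by_cases hnm : n ≤ m
  · rw [Nat.sub_eq_zero_of_le hnm, pow_zero]; exact one_dvd _
  push Not at hnm
  -- p-adic valuations
  have h4 : n ≤ padicValNat p (ramIdx K * r) := by
    rwa [padicValNat_dvd_iff_le (mul_ne_zero hK0 hr0.ne')] at h3
  rw [padicValNat.mul hK0 hr0.ne'] at h4
  have h5 : padicValNat p r < m := by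
    by_contra hcon
    push Not at hcon
    have h6 : p ^ m ∣ r := (padicValNat_dvd_iff_le hr0.ne').2 hcon
    exact absurd (Nat.le_of_dvd hr0 h6) (by omega)
  rw [padicValNat_dvd_iff_le hK0]
  omega

/-- The reciprocal roots of `L(χ, s)` are algebraic. -/
theorem isIntegral_Lfun {k F E : Type} [Field k] [Finite k] [CharP k p]
    [Field F] [Algebra k F] [Field E] [Algebra F E] [Algebra k E] [IsScalarTower k F E]
    (h : IsZpTower k F E p) {n : ℕ} (_hn : n ≠ 0) (χ : (E ≃ₐ[F] E) →* ℂ_[p]ˣ)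
    (hχ : orderOf χ = p ^ n) (A : Multiset ℂ_[p]) (hA : Lfun k χ = recipProd A) :
    ∀ α ∈ A, IsIntegral ℚ_[p] α := by
  classical
  obtain ⟨Φ⟩ := h.group
  let ι := {v : Place k F // v.IsUnramified E}
  let ρ : ι → ℤ_[p] := fun v => (Φ (v.1.frob E)).toAdd
  let d : ι → ℕ := fun v => v.1.deg
  have hd : ∀ v, d v ≠ 0 := fun v => deg_ne_zero h.base v.1
  have hfin : ∀ m, {v : ι | d v ≤ m}.Finite := by
    intro m
    exact (finite_deg_le h.base m).preimage Subtype.val_injective.injOn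
  obtain ⟨hz, hval⟩ := char_eq Φ.toMulEquiv χ hχ
  have hE : Lfun k χ = eulerL ρ d n
      ((χ (Φ.symm (Multiplicative.ofAdd 1)) : ℂ_[p]ˣ) : ℂ_[p]) := by
    rw [Lfun, eulerL]
    congr 1
    funext v
    rw [hval (v.1.frob E)]
    rfl
  have hcoeff := coeff_eulerL ρ d hd hfin hz.pow_eq_one
  have halg : ∀ j, IsAlgebraic ℚ_[p] (coeff j (eulerL ρ d n
      ((χ (Φ.symm (Multiplicative.ofAdd 1)) : ℂ_[p]ˣ) : ℂ_[p]))) := by
    intro j
    have h5 := hcoeff j
    exact h5 ▸ isAlgebraic_evSum hz.pow_eq_one _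
  apply isIntegral_of_coeff
  intro j
  rw [← hA, hE]
  exact halg j

theorem finiteDimensional_genField (A : Multiset ℂ_[p]) (h : ∀ α ∈ A, IsIntegral ℚ_[p] α) :
    FiniteDimensional ℚ_[p] (genField A) := by
  have hfin : Finite {α | α ∈ A} := by
    classical
    exact (A.toFinset.finite_toSet.subset (fun x hx => by simpa using hx)).to_subtype
  exact IntermediateField.finiteDimensional_adjoin (fun x hx => h x hx)

end Pool.Agent.W90.ZT
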