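import Mathlib
import Pool.Agent.KS6_3.ZL.W90.ZT.Zeta

/-!
The splitting field over `ℚ` of the numerator of the zeta function.
-/

set_option autoImplicit false

open PowerSeries IntermediateField

namespace Pool.Agent.W90.ZT

open Pool.Agent.H387R3.ZT Pool.Agent.H707R3 Pool.Agent.H412R3.ZT

section general

variable {R : Type*} [Field R] [TopologicalSpace R] [T2Space R]

open scoped PowerSeries.WithPiTopology

/-- The coefficients of an Euler product with finitely many factors of each degree. -/
lemma coeff_tprod_geom' {ι : Type*} [DecidableEq ι] (a : ι → R) (d : ι → ℕ)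
    (hfin : ∀ k, {v | d v ≤ k}.Finite) (k : ℕ) :
    coeff k (∏' v, geom (a v) (d v)) = coeff k (∏ v ∈ (hfin k).toFinset, geom (a v) (d v)) := by
  let L : PowerSeries R := PowerSeries.mk fun k =>
    coeff k (∏ v ∈ (hfin k).toFinset, geom (a v) (d v))
  have hL : HasProd (fun v => geom (a v) (d v)) L := by
    rw [HasProd, WithPiTopology.tendsto_iff_coeff_tendsto]
    intro k
    refine tendsto_const_nhds.congr' ?_
    rw [SummationFilter.unconditional_filter]
    filter_upwards [Filter.eventually_ge_atTop (hfin k).toFinset] with s hs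
    rw [coeff_mk]
    symm
    apply coeff_prod_eq _ _ hs
    intro i hi
    apply X_pow_dvd_geom_sub_one
    have := (Finset.mem_sdiff.1 hi).2
    simp only [Set.Finite.mem_toFinset, Set.mem_ofPred_eq] at this
    omega
  have : T2Space (PowerSeries R) := WithPiTopology.instT2Space R
  rw [hL.tprod_eq, coeff_mk]

/-- The zeta function with coefficients in a topological field. -/
noncomputable def zetaR (R : Type) [Field R] [TopologicalSpace R] (k K : Type) [Field k] [Field K]
    [Algebra k K] : PowerSeries R :=
  ∏' v : Place k K, (1 - X ^ v.deg)⁻¹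

end general

/-- The zeta function with integral coefficients. -/
noncomputable def zetaZ {k K : Type} [Field k] [Field K] [Algebra k K]
    (hfin : ∀ m, {v : Place k K | v.deg ≤ m}.Finite) : PowerSeries ℤ :=
  PowerSeries.mk fun m => coeff m (∏ v ∈ (hfin m).toFinset, geom (1 : ℤ) v.deg)

open scoped PowerSeries.WithPiTopology in
lemma zetaR_eq {R : Type} [Field R] [TopologicalSpace R] [T2Space R] {k K : Type} [Field k]
    [Field K] [Algebra k K] (hd : ∀ v : Place k K, v.deg ≠ 0)
    (hfin : ∀ m, {v : Place k K | v.deg ≤ m}.Finite) :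
    zetaR R k K = PowerSeries.map (Int.castRingHom R) (zetaZ hfin) := by
  classical
  have h1 : zetaR R k K = ∏' v : Place k K, geom (1 : R) v.deg := by
    unfold zetaR
    congr 1
    funext v
    rw [← inv_eq_geom 1 (hd v), map_one, one_mul]
  ext m
  rw [h1, coeff_tprod_geom' (fun _ : Place k K => (1 : R)) (fun v => v.deg) hfin m, coeff_map,
    zetaZ, coeff_mk]
  have hmap : (∏ v ∈ (hfin m).toFinset, geom (1 : R) v.deg) =
      PowerSeries.map (Int.castRingHom R) (∏ v ∈ (hfin m).toFinset, geom (1 : ℤ) v.deg) := by
    rw [map_prod (PowerSeries.map (Int.castRingHom R))]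
    refine Finset.prod_congr rfl fun v _ => ?_
    rw [map_geom, map_one]
  rw [hmap, coeff_map]

/-- The numerator as a power series with integral coefficients. -/
noncomputable def numZ {k K : Type} [Field k] [Field K] [Algebra k K]
    (hfin : ∀ m, {v : Place k K | v.deg ≤ m}.Finite) : PowerSeries ℤ :=
  zetaZ hfin * (1 - X) * (1 - C (Nat.card k : ℤ) * X)

lemma map_numZ (R : Type) [Field R] [TopologicalSpace R] [T2Space R] {k K : Type} [Field k]
    [Field K] [Algebra k K] (hd : ∀ v : Place k K, v.deg ≠ 0)
    (hfin : ∀ m, {v : Place k K | v.deg ≤ m}.Finite) :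
    zetaR R k K * (1 - X) * (1 - C (Nat.card k : R) * X) =
      PowerSeries.map (Int.castRingHom R) (numZ hfin) := by
  rw [zetaR_eq hd hfin, numZ]
  simp

/-- transport of a multiset of reciprocal roots along a field embedding -/
lemma transport {P : Polynomial ℤ} {S T : Type} [Field S] [Field T] (φ : S →+* T)
    {A : Multiset S} (hA : P.map (Int.castRingHom S) =
      (A.map fun α => 1 - Polynomial.C α * Polynomial.X).prod) :
    P.map (Int.castRingHom T) =
      ((A.map φ).map fun α => 1 - Polynomial.C α * Polynomial.X).prod := by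
  have h1 : P.map (Int.castRingHom T) = (P.map (Int.castRingHom S)).map φ := by
    rw [Polynomial.map_map]
    congr 1
    exact RingHom.ext_int _ _
  rw [h1, hA, Polynomial.map_multiset_prod, Multiset.map_map, Multiset.map_map]
  congr 1
  apply Multiset.map_congr rfl
  intro α _
  simp

end Pool.Agent.W90.ZT
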