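import Mathlib
import Pool.Agent.KS6_3.ZL.W90.ZT.Glob

/-!
The degree over `ℚ` of the splitting field of the numerator of the zeta function.
-/

set_option autoImplicit false

open Polynomial IntermediateField

namespace Pool.Agent.W90.ZT

open Pool.Agent.H387R3.ZT Pool.Agent.H707R3 Pool.Agent.H412R3.ZT

variable {p : ℕ} [Fact p.Prime]

lemma coeff_recipProd_mem' (K : IntermediateField ℚ ℂ_[p]) (A : Multiset ℂ_[p])
    (h : ∀ α ∈ A, α ∈ K) : ∀ k, PowerSeries.coeff k (recipProd A) ∈ K := by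
  induction A using Multiset.induction with
  | empty =>
    intro k
    have : recipProd (0 : Multiset ℂ_[p]) = 1 := by simp [recipProd]
    rw [this, PowerSeries.coeff_one]
    split_ifs
    · exact K.one_mem
    · exact K.zero_mem
  | cons α A ih =>
    intro k
    have ih' := ih fun β hβ => h β (Multiset.mem_cons_of_mem hβ)
    rw [recipProd_cons, map_sub, PowerSeries.coeff_C_mul]
    refine K.sub_mem (ih' k) (K.mul_mem (h α (Multiset.mem_cons_self α A)) ?_)
    rcases k with _ | k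
    · simp
    · rw [PowerSeries.coeff_succ_X_mul]
      exact ih' k

/-- The degree of `K(z)/K` is bounded when `K` contains the value of a fixed formal sum. -/
lemma finrank_adjoin_le' (K : IntermediateField ℚ ℂ_[p]) {z : ℂ_[p]} {n : ℕ}
    (hz : IsPrimitiveRoot z (p ^ (n + 1))) (M : ℤ_[p] →₀ ℕ)
    (hdist : ∀ b ∈ M.support, ∀ b' ∈ M.support, res n b = res n b' → b = b')
    {b₀ : ℤ_[p]} (hb₀ : b₀ ∈ M.support) (hb₀' : b₀ ≠ 0) (hK : evSum (n + 1) M z ∈ K) :
    FiniteDimensional K K⟮z⟯ ∧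
      Module.finrank K K⟮z⟯ ≤ M.support.card * p ^ b₀.valuation := by
  classical
  have hp : p.Prime := Fact.out
  have hpos : 0 < p ^ (n + 1) := pow_pos hp.pos _
  have hne : NeZero (p ^ (n + 1)) := ⟨hpos.ne'⟩
  have hint : IsIntegral K z := by
    refine ⟨X ^ p ^ (n + 1) - C 1, monic_X_pow_sub_C 1 hpos.ne', ?_⟩
    simp [hz.pow_eq_one]
  refine ⟨adjoin.finiteDimensional hint, ?_⟩
  rw [adjoin.finrank hint]
  have hsep : (minpoly K z).Separable := (minpoly.irreducible hint).separable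
  have hsplit : ((minpoly K z).map (algebraMap K ℂ_[p])).Splits := IsAlgClosed.splits _
  have hcard : (minpoly K z).natDegree = (((minpoly K z).aroots ℂ_[p]).toFinset).card := by
    rw [Multiset.toFinset_card_of_nodup (nodup_aroots_iff_of_splits (minpoly.ne_zero hint) hsplit
      |>.2 hsep), ← natDegree_map (algebraMap K ℂ_[p])]
    exact hsplit.natDegree_eq_card_roots
  rw [hcard]
  let c : K := ⟨evSum (n + 1) M z, hK⟩
  let G : K[X] := ∑ b ∈ M.support, C ((M b : K)) * X ^ res (n + 1) b - C c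
  have hG : aeval z G = 0 := by
    simp only [G, map_sub, map_sum, map_mul, aeval_C, map_pow, aeval_X, map_natCast]
    show evSum (n + 1) M z - evSum (n + 1) M z = 0
    exact sub_self _
  have hdvd1 : minpoly K z ∣ G := minpoly.dvd K z hG
  have hdvd2 : minpoly K z ∣ cyclotomic (p ^ (n + 1)) K := by
    apply minpoly.dvd
    rw [aeval_def, eval₂_eq_eval_map, map_cyclotomic]
    exact (isRoot_cyclotomic_iff.2 hz)
  have hroot : ∀ w ∈ ((minpoly K z).aroots ℂ_[p]).toFinset, ∃ u : ZMod (p ^ (n + 1)),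
      z ^ u.val = w ∧ ∃ b' ∈ M.support, u * PadicInt.toZModPow (n + 1) b₀ =
        PadicInt.toZModPow (n + 1) b' := by
    intro w hw
    have hw0 : aeval w (minpoly K z) = 0 := by
      have h := isRoot_of_mem_roots (Multiset.mem_toFinset.1 hw)
      rwa [IsRoot.def, eval_map, ← aeval_def] at h
    have hwprim : IsPrimitiveRoot w (p ^ (n + 1)) := by
      have : aeval w (cyclotomic (p ^ (n + 1)) K) = 0 := by
        obtain ⟨R, hR⟩ := hdvd2
        rw [hR, map_mul, hw0, zero_mul]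
      rw [aeval_def, eval₂_eq_eval_map, map_cyclotomic] at this
      exact isRoot_cyclotomic_iff.1 this
    obtain ⟨i, hi, hcop, hiw⟩ := (hz.isPrimitiveRoot_iff (k := p ^ (n + 1))).1 hwprim
    have hGw : aeval w G = 0 := by
      obtain ⟨R, hR⟩ := hdvd1
      rw [hR, map_mul, hw0, zero_mul]
    have hev : ∑ b ∈ M.support, (M b : ℂ_[p]) * (z ^ i) ^ res (n + 1) b =
        ∑ b ∈ M.support, (M b : ℂ_[p]) * z ^ res (n + 1) b := by
      simp only [G, map_sub, map_sum, map_mul, aeval_C, map_pow, aeval_X, map_natCast] at hGw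
      rw [hiw]
      exact sub_eq_zero.1 hGw
    have hcop' : Nat.Coprime i p := Nat.Coprime.coprime_dvd_right (dvd_pow_self p (by omega)) hcop
    obtain ⟨b', hb', hbb⟩ := exists_of_invariant hz M hdist hcop' hev hb₀
    refine ⟨(i : ZMod (p ^ (n + 1))), ?_, b', hb', ?_⟩
    · rw [ZMod.val_natCast, Nat.mod_eq_of_lt hi, hiw]
    · have e1 : (PadicInt.toZModPow (n + 1) b₀ : ZMod (p ^ (n + 1))) =
          ((res (n + 1) b₀ : ℕ) : ZMod (p ^ (n + 1))) := by
        rw [res, ZMod.natCast_val, ZMod.cast_id]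
      have e2 : (PadicInt.toZModPow (n + 1) b' : ZMod (p ^ (n + 1))) =
          ((res (n + 1) b' : ℕ) : ZMod (p ^ (n + 1))) := by
        rw [res, ZMod.natCast_val, ZMod.cast_id]
      rw [e1, e2, ← hbb, ← Nat.cast_mul, ZMod.natCast_mod]
  choose! f hf1 hf2 using hroot
  have hle : (((minpoly K z).aroots ℂ_[p]).toFinset).card ≤
      (M.support.biUnion fun b' => Finset.univ.filter fun u : ZMod (p ^ (n + 1)) =>
        u * PadicInt.toZModPow (n + 1) b₀ = PadicInt.toZModPow (n + 1) b').card := by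
    refine Finset.card_le_card_of_injOn f ?_ ?_
    · intro w hw
      obtain ⟨b', hb', h⟩ := hf2 w hw
      simp only [Finset.coe_biUnion, Set.mem_iUnion]
      exact ⟨b', hb', by simp [h]⟩
    · intro w hw w' hw' heq
      rw [← hf1 w hw, ← hf1 w' hw', heq]
  refine hle.trans (Finset.card_biUnion_le_card_mul _ _ _ fun b' _ => ?_)
  exact card_mul_eq_le (n + 1) hb₀' _

/-- The field obtained from `K` by adjoining all `p ^ n`-th roots of unity. -/
lemma adjoin_roots_eq' (K : IntermediateField ℚ ℂ_[p]) {n : ℕ} {z : ℂ_[p]}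
    (hz : IsPrimitiveRoot z (p ^ n)) :
    IntermediateField.adjoin K {w : ℂ_[p] | w ^ p ^ n = 1} = K⟮z⟯ := by
  have hp : p.Prime := Fact.out
  have hne : NeZero (p ^ n) := ⟨pow_ne_zero _ hp.ne_zero⟩
  apply le_antisymm
  · rw [IntermediateField.adjoin_le_iff]
    intro w hw
    obtain ⟨i, _, rfl⟩ := hz.eq_pow_of_pow_eq_one hw
    exact pow_mem (IntermediateField.mem_adjoin_simple_self K z) i
  · apply IntermediateField.adjoin.mono
    intro w hw
    rw [Set.mem_singleton_iff] at hw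
    rw [hw]
    exact hz.pow_eq_one

open PowerSeries in
theorem core_bddQ {ι : Type*} [Nonempty ι] (ρ : ι → ℤ_[p]) (d : ι → ℕ) (hd : ∀ v, d v ≠ 0)
    (hfin : ∀ k, {v | d v ≤ k}.Finite) :
    ∃ D : ℕ, 0 < D ∧ ∃ N : ℕ, ∀ n, N ≤ n → ∀ z : ℂ_[p], IsPrimitiveRoot z (p ^ n) →
      ∀ A : Multiset ℂ_[p], eulerL ρ d n z = recipProd A →
        ∀ K : IntermediateField ℚ ℂ_[p], (∀ α ∈ A, α ∈ K) →
          FiniteDimensional K K⟮z⟯ ∧ Module.finrank K K⟮z⟯ ≤ D := by
  classical
  have hp : p.Prime := Fact.out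
  by_cases hρ : ∃ v, ρ v ≠ 0
  · obtain ⟨v₀, hv₀⟩ := hρ
    set k := d v₀ with hk
    set M : ℤ_[p] →₀ ℕ := (theta ρ d (hfin k).toFinset k).coeff with hM
    have hb₀ : ρ v₀ ∈ M.support :=
      mem_support_theta ρ d _ (by simp [hk]) (hd v₀)
    obtain ⟨N, hN⟩ := exists_distinct M.support
    refine ⟨M.support.card * p ^ (ρ v₀).valuation, ?_, N + 1, ?_⟩
    · apply Nat.mul_pos
      · exact Finset.card_pos.2 ⟨_, hb₀⟩
      · exact pow_pos hp.pos _
    · intro n hn z hz A hA K hK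
      obtain ⟨n, rfl⟩ : ∃ m, n = m + 1 := ⟨n - 1, by omega⟩
      have hz1 : z ^ p ^ (n + 1) = 1 := hz.pow_eq_one
      have hcoeff := coeff_eulerL ρ d hd hfin hz1
      have hmem : evSum (n + 1) M z ∈ K := by
        rw [hM, ← hcoeff, hA]
        exact coeff_recipProd_mem' _ A hK k
      have hdist := hN n (by omega)
      exact finrank_adjoin_le' K hz M hdist hb₀ hv₀ hmem
  · -- excluded by the `p`-adic statement
    obtain ⟨D, hD, N, hN⟩ := core_bdd ρ d hd hfin
    refine ⟨1, one_pos, 0, ?_⟩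
    intro n _ z hz A hA
    exfalso
    push Not at hρ
    obtain ⟨v₀⟩ := (inferInstance : Nonempty ι)
    set k := (Multiset.card A + 1) * d v₀ with hk
    have hkA : Multiset.card A < k := by
      have : 1 ≤ d v₀ := Nat.pos_of_ne_zero (hd v₀)
      calc Multiset.card A < Multiset.card A + 1 := Nat.lt_succ_self _
        _ ≤ (Multiset.card A + 1) * d v₀ := Nat.le_mul_of_pos_right _ this
    have h0 := coeff_recipProd_eq_zero A k hkA
    have hfun : (fun v => (1 - PowerSeries.C (z ^ res n (ρ v)) * PowerSeries.X ^ d v : PowerSeries ℂ_[p])⁻¹) =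
        fun v => geom (1 : ℂ_[p]) (d v) := by
      funext v
      rw [inv_eq_geom _ (hd v), hρ v]
      simp [res]
    rw [← hA, eulerL, hfun, coeff_tprod_geom (fun _ => (1 : ℂ_[p])) d hfin k] at h0
    have hmap : (∏ v ∈ (hfin k).toFinset, geom (1 : ℂ_[p]) (d v)) =
        PowerSeries.map (Nat.castRingHom ℂ_[p]) (∏ v ∈ (hfin k).toFinset, geom (1 : ℕ) (d v)) := by
      rw [map_prod (PowerSeries.map (Nat.castRingHom ℂ_[p]))]
      refine Finset.prod_congr rfl fun v _ => ?_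
      rw [map_geom, map_one]
    rw [hmap, PowerSeries.coeff_map] at h0
    have h1 : PowerSeries.coeff k (∏ v ∈ (hfin k).toFinset, geom (1 : ℕ) (d v)) = 0 := by
      have : ((PowerSeries.coeff k (∏ v ∈ (hfin k).toFinset, geom (1 : ℕ) (d v)) : ℕ) : ℂ_[p]) = 0 :=
        h0
      exact_mod_cast this
    have hv₀ : v₀ ∈ (hfin k).toFinset := by
      simp only [Set.Finite.mem_toFinset, Set.mem_ofPred_eq, hk]
      exact Nat.le_mul_of_pos_left _ (Nat.succ_pos _)
    have h2 := le_coeff_prod (AddMonoidHom.id ℕ) (hfin k).toFinset (fun v => geom (1 : ℕ) (d v))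
      (fun i _ => coeff_zero_geom _ _) hv₀ k
    simp only [AddMonoidHom.id_apply] at h2
    rw [h1, coeff_geom, if_pos (Dvd.intro_left _ hk.symm), one_pow] at h2
    omega

/-- tower version -/
theorem tower_bddQ (k : Type*) {F E : Type*} [Field k] [Field F] [Algebra k F]
    [Field E] [Algebra F E] [Finite k] [Algebra k E] (h : IsZpTower k F E p) :
    ∃ D : ℕ, 0 < D ∧ ∃ N : ℕ, ∀ n, N ≤ n → ∀ χ : (E ≃ₐ[F] E) →* ℂ_[p]ˣ, orderOf χ = p ^ n →
      ∀ A : Multiset ℂ_[p], Lfun k χ = recipProd A →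
        ∀ K : IntermediateField ℚ ℂ_[p], (∀ α ∈ A, α ∈ K) →
          ∀ z : ℂ_[p], IsPrimitiveRoot z (p ^ n) →
          FiniteDimensional K K⟮z⟯ ∧ Module.finrank K K⟮z⟯ ≤ D := by
  obtain ⟨Φ⟩ := h.group
  let ι := {v : Place k F // v.IsUnramified E}
  have hne : Nonempty ι := by
    have h1 : Infinite (Place k F) := infinite_place h.base
    have h2 : ({v : Place k F | ¬ v.IsUnramified E}ᶜ).Nonempty :=
      (Set.Finite.infinite_compl h.finite_ramified).nonempty
    obtain ⟨v, hv⟩ := h2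
    exact ⟨⟨v, not_not.1 hv⟩⟩
  let ρ : ι → ℤ_[p] := fun v => (Φ (v.1.frob E)).toAdd
  let d : ι → ℕ := fun v => v.1.deg
  have hd : ∀ v, d v ≠ 0 := fun v => deg_ne_zero h.base v.1
  have hfin : ∀ m, {v : ι | d v ≤ m}.Finite := by
    intro m
    exact (finite_deg_le h.base m).preimage Subtype.val_injective.injOn
  obtain ⟨D, hD, N, hN⟩ := core_bddQ ρ d hd hfin
  refine ⟨D, hD, N, ?_⟩
  intro n hn χ hχ A hA K hK z' hz'
  obtain ⟨hz, hval⟩ := char_eq Φ.toMulEquiv χ hχ
  rw [← adjoin_roots_eq' K hz', adjoin_roots_eq' K hz]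
  refine hN n hn _ hz A ?_ K hK
  rw [← hA, Lfun, eulerL]
  congr 1
  funext v
  rw [hval (v.1.frob E)]
  rfl

theorem mem_of_genField_le {A B C : Multiset ℂ_[p]} (h : recipProd A = recipProd B * recipProd C)
    (K : IntermediateField ℚ ℂ_[p]) (hK : ∀ α ∈ A, α ∈ K) : ∀ α ∈ B, α ∈ K := by
  intro α hα
  by_cases h0 : α = 0
  · rw [h0]; exact K.zero_mem
  · exact hK _ (mem_of_recipProd_eq h hα h0)

theorem named_bddQ {k F E : Type} [Field k] [Finite k] [CharP k p]
    [Field F] [Algebra k F] [Field E] [Algebra F E] [Algebra k E] [IsScalarTower k F E]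
    (h : IsZpTower k F E p) :
    ∃ D : ℕ, 0 < D ∧ ∃ N : ℕ, ∀ n, N ≤ n → ∀ (K : ℕ → IntermediateField F E)
      (A : ℕ → Multiset ℂ_[p]), Named k F E K A →
        ∀ M : IntermediateField ℚ ℂ_[p], (∀ α ∈ A n, α ∈ M) →
          ∀ z : ℂ_[p], IsPrimitiveRoot z (p ^ n) →
        FiniteDimensional M M⟮z⟯ ∧ Module.finrank M M⟮z⟯ ≤ D := by
  classical
  obtain ⟨D, hD, N₁, hN₁⟩ := tower_bddQ k h
  obtain ⟨N₂, hN₂⟩ := H623R3.ZT.taskG p k F E h
  obtain ⟨N₃, hN₃⟩ := taskF2 p k F E h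
  refine ⟨D, hD, max N₁ (max (N₂ + 1) N₃), ?_⟩
  intro n hn K A hKA M hM z hz
  obtain ⟨m, rfl⟩ : ∃ m, n = m + 1 := ⟨n - 1, by omega⟩
  have hm : N₂ ≤ m := by omega
  obtain ⟨s, hs, hfac⟩ := hN₂ K (fun n => (hKA n).1) m hm
  obtain ⟨Φ⟩ := h.group
  obtain ⟨χ₀, hχ₀⟩ := exists_char Φ.toMulEquiv (m + 1)
  have hB : ∀ χ : (E ≃ₐ[F] E) →* ℂ_[p]ˣ, orderOf χ = p ^ (m + 1) →
      ∃ B : Multiset ℂ_[p], Lfun k χ = recipProd B := fun χ hχ =>
    weil p k F E h (m + 1) χ hχ (hN₃ K A hKA (m + 1) χ (by omega) hχ)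
  choose! B hB' using hB
  have hfac2 : recipProd (A (m + 1)) = recipProd (B χ₀) *
      recipProd (A m + ∑ χ ∈ s.erase χ₀, B χ) := by
    rw [← (hKA (m + 1)).2, hfac]
    have h1 : ∏ χ ∈ s, Lfun k χ = recipProd (B χ₀) * recipProd (∑ χ ∈ s.erase χ₀, B χ) := by
      rw [← recipProd_finset, ← Finset.mul_prod_erase s _ ((hs χ₀).2 hχ₀), hB' χ₀ hχ₀]
      congr 1
      refine Finset.prod_congr rfl fun χ hχ => ?_
      exact hB' χ ((hs χ).1 (Finset.mem_of_mem_erase hχ))
    rw [h1, recipProd_add, ← (hKA m).2]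
    ring
  exact hN₁ (m + 1) (by omega) χ₀ hχ₀ (B χ₀) (hB' χ₀ hχ₀) M (mem_of_genField_le hfac2 M hM) z hz

end Pool.Agent.W90.ZT
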