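import Mathlib
import Pool.Agent.KS6_3.ZL.W90.ZT.Glob2

/-!
The degree over `ℚ` of the splitting field of the numerator of the zeta function: transport to `ℂ`.
-/

set_option autoImplicit false

open IntermediateField

namespace Pool.Agent.W90.ZT

open Pool.Agent.H387R3.ZT Pool.Agent.H707R3 Pool.Agent.H412R3.ZT

variable {p : ℕ} [Fact p.Prime]

/-- The product of the factors `1 - α X` over a multiset. -/
noncomputable def rp {R : Type} [Field R] (A : Multiset R) : PowerSeries R :=
  (A.map fun α => 1 - PowerSeries.C α * PowerSeries.X).prod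

lemma map_rp {S T : Type} [Field S] [Field T] (φ : S →+* T) (A : Multiset S) :
    PowerSeries.map φ (rp A) = rp (A.map φ) := by
  rw [rp, rp, map_multiset_prod, Multiset.map_map, Multiset.map_map]
  congr 1
  apply Multiset.map_congr rfl
  intro α _
  simp

lemma map_map_int {S T : Type} [Field S] [Field T] (φ : S →+* T) (f : PowerSeries ℤ) :
    PowerSeries.map φ (PowerSeries.map (Int.castRingHom S) f) =
      PowerSeries.map (Int.castRingHom T) f := by
  ext m
  simp

open PowerSeries in
/-- Factorisation over an algebraically closed field. -/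
theorem exists_rp {Ω : Type} [Field Ω] [IsAlgClosed Ω] (L : PowerSeries Ω) (h0 : coeff 0 L = 1) (k0 : ℕ)
    (hk : ∀ k, k0 ≤ k → coeff k L = 0) : ∃ A : Multiset Ω, L = rp A := by
  have key : ∀ n : ℕ, ∀ P : Polynomial Ω, P.natDegree ≤ n → P.coeff 0 = 1 →
      ∃ A : Multiset Ω, (P : PowerSeries Ω) = rp A := by
    intro n
    induction n with
    | zero =>
      intro P hP hP0
      refine ⟨0, ?_⟩
      rw [Polynomial.eq_C_of_natDegree_le_zero hP, hP0]
      simp [rp]
    | succ n ih =>
      intro P hP hP0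
      by_cases hdeg : P.natDegree = 0
      · refine ⟨0, ?_⟩
        rw [Polynomial.eq_C_of_natDegree_eq_zero hdeg, hP0]
        simp [rp]
      · have hne : P.degree ≠ 0 := by
          intro h
          exact hdeg (Polynomial.natDegree_eq_of_degree_eq_some h)
        obtain ⟨r, hr⟩ := IsAlgClosed.exists_root P hne
        have hr0 : r ≠ 0 := by
          rintro rfl
          rw [Polynomial.IsRoot.def, ← Polynomial.coeff_zero_eq_eval_zero, hP0] at hr
          exact one_ne_zero hr
        obtain ⟨Q, hQ⟩ := Polynomial.dvd_iff_isRoot.2 hr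
        let R : Polynomial Ω := Polynomial.C (-r) * Q
        have hPR : P = (1 - Polynomial.C r⁻¹ * Polynomial.X) * R := by
          have h1 : (1 - Polynomial.C r⁻¹ * Polynomial.X) * Polynomial.C (-r) =
              Polynomial.X - Polynomial.C r := by
            rw [sub_mul, one_mul, mul_assoc, mul_comm Polynomial.X, ← mul_assoc, ← Polynomial.C_mul]
            have : r⁻¹ * -r = -1 := by field_simp
            rw [this]
            simp only [map_neg, Polynomial.C_1]
            ring
          rw [hQ, ← h1]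
          simp only [R]
          ring
        have hPne : P ≠ 0 := by
          rintro rfl
          simp at hP0
        have hQne : Q ≠ 0 := by
          rintro rfl
          rw [mul_zero] at hQ
          exact hPne hQ
        have hdegQ : P.natDegree = Q.natDegree + 1 := by
          rw [hQ, Polynomial.natDegree_mul (Polynomial.X_sub_C_ne_zero r) hQne,
            Polynomial.natDegree_X_sub_C, add_comm]
        have hdegR : R.natDegree ≤ n := by
          have : R.natDegree ≤ Q.natDegree := Polynomial.natDegree_C_mul_le _ _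
          omega
        have hR0 : R.coeff 0 = 1 := by
          have h1 := hP0
          rw [hPR, Polynomial.mul_coeff_zero] at h1
          simpa using h1
        obtain ⟨A, hA⟩ := ih R hdegR hR0
        refine ⟨r⁻¹ ::ₘ A, ?_⟩
        rw [hPR, Polynomial.coe_mul, hA]
        simp only [rp, Multiset.map_cons, Multiset.prod_cons]
        congr 1
        simp
  let P : Polynomial Ω := trunc (k0 + 1) L
  have hPL : (P : PowerSeries Ω) = L := by
    ext k
    rw [Polynomial.coeff_coe, coeff_trunc]
    split_ifs with h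
    · rfl
    · rw [hk k (by omega)]
  have hP0 : P.coeff 0 = 1 := by
    rw [← Polynomial.coeff_coe, hPL, h0]
  obtain ⟨A, hA⟩ := key P.natDegree P le_rfl hP0
  exact ⟨A, by rw [← hPL, hA]⟩

lemma rp_cons {R : Type} [Field R] (α : R) (A : Multiset R) :
    rp (α ::ₘ A) = (1 - PowerSeries.C α * PowerSeries.X) * rp A := by
  simp only [rp, Multiset.map_cons, Multiset.prod_cons]

/-- The polynomial with the same coefficients. -/
noncomputable def rpPoly {R : Type} [Field R] (A : Multiset R) : Polynomial R :=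
  (A.map fun α => 1 - Polynomial.C α * Polynomial.X).prod

lemma coe_rpPoly {R : Type} [Field R] (A : Multiset R) : (rpPoly A : PowerSeries R) = rp A := by
  induction A using Multiset.induction with
  | empty => simp [rpPoly, rp]
  | cons α A ih =>
    rw [rp_cons, ← ih, rpPoly, Multiset.map_cons, Multiset.prod_cons, Polynomial.coe_mul]
    simp [rpPoly]

lemma coeff_zero_rp {R : Type} [Field R] (A : Multiset R) : PowerSeries.coeff 0 (rp A) = 1 := by
  induction A using Multiset.induction with
  | empty => simp [rp]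
  | cons α A ih =>
    rw [rp_cons, PowerSeries.coeff_zero_eq_constantCoeff_apply, map_mul,
      ← PowerSeries.coeff_zero_eq_constantCoeff_apply, ← PowerSeries.coeff_zero_eq_constantCoeff_apply,
      ih]
    simp

/-- Reciprocal roots of a series with integral coefficients are algebraic. -/
lemma isIntegral_of_rp {Ω : Type} [Field Ω] [CharZero Ω] (A : Multiset Ω) (f : PowerSeries ℤ)
    (h : rp A = PowerSeries.map (Int.castRingHom Ω) f) : ∀ α ∈ A, IsIntegral ℚ α := by
  intro α hα
  by_cases h0 : α = 0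
  · rw [h0]; exact isIntegral_zero
  let Q : Polynomial ℚ := PowerSeries.trunc ((rpPoly A).natDegree + 1)
    (PowerSeries.map (Int.castRingHom ℚ) f)
  have hQ : Q.map (algebraMap ℚ Ω) = rpPoly A := by
    ext m
    rw [Polynomial.coeff_map, PowerSeries.coeff_trunc]
    have h1 : (rpPoly A).coeff m = ((PowerSeries.coeff m f : ℤ) : Ω) := by
      rw [← Polynomial.coeff_coe, coe_rpPoly, h, PowerSeries.coeff_map]
      rfl
    split_ifs with hm
    · rw [h1, PowerSeries.coeff_map]
      simp
    · rw [map_zero, Polynomial.coeff_eq_zero_of_natDegree_lt (by omega)]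
  have hne : rpPoly A ≠ 0 := by
    intro h0'
    have h1 := coeff_zero_rp A
    rw [← coe_rpPoly, h0'] at h1
    simp at h1
  have hQ0 : Q ≠ 0 := by
    rintro h1
    apply hne
    rw [← hQ, h1]
    simp
  have hroot : Polynomial.eval α⁻¹ (rpPoly A) = 0 := by
    obtain ⟨B, rfl⟩ := Multiset.exists_cons_of_mem hα
    simp only [rpPoly, Multiset.map_cons, Multiset.prod_cons, Polynomial.eval_mul]
    simp [mul_inv_cancel₀ h0]
  have halg : IsAlgebraic ℚ α⁻¹ := by
    refine ⟨Q, hQ0, ?_⟩
    rw [Polynomial.aeval_def, Polynomial.eval₂_eq_eval_map, hQ]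
    exact hroot
  have h3 : IsAlgebraic ℚ α := by
    have := halg.inv
    rwa [inv_inv] at this
  exact h3.isIntegral

lemma map_injective_ps {S T : Type} [Field S] [Field T] (φ : S →+* T) :
    Function.Injective (PowerSeries.map φ) := by
  intro f g h
  ext m
  apply φ.injective
  have := congrArg (PowerSeries.coeff m) h
  simpa using this

lemma finrank_le_of_maps {T Ω : Type} [Field T] [Field Ω] [Algebra ℚ T] [Algebra ℚ Ω]
    (φ : T →ₐ[ℚ] Ω) (N : IntermediateField ℚ Ω) [FiniteDimensional ℚ N] (h : ∀ t, φ t ∈ N) :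
    Module.finrank ℚ T ≤ Module.finrank ℚ N := by
  let g : T →ₗ[ℚ] N :=
    { toFun := fun t => ⟨φ t, h t⟩
      map_add' := fun a b => Subtype.ext (map_add φ a b)
      map_smul' := fun c a => Subtype.ext (by simp) }
  refine LinearMap.finrank_le_finrank_of_injective (f := g) ?_
  intro a b hab
  apply φ.injective
  exact congrArg Subtype.val hab

lemma finrank_restrict {Ω : Type} [Field Ω] [Algebra ℚ Ω] (M : IntermediateField ℚ Ω) (z : Ω)
    [FiniteDimensional ℚ M] [FiniteDimensional M M⟮z⟯] :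
    FiniteDimensional ℚ (M⟮z⟯.restrictScalars ℚ) ∧
    Module.finrank ℚ (M⟮z⟯.restrictScalars ℚ) = Module.finrank ℚ M * Module.finrank M M⟮z⟯ := by
  constructor
  · have : FiniteDimensional ℚ M⟮z⟯ := FiniteDimensional.trans ℚ M M⟮z⟯
    exact this
  · exact (Module.finrank_mul_finrank ℚ M M⟮z⟯).symm

theorem transport_deg (f : PowerSeries ℤ) (D n : ℕ)
    (hf : ∀ B : Multiset ℂ_[p], PowerSeries.map (Int.castRingHom ℂ_[p]) f = recipProd B →
      ∀ M : IntermediateField ℚ ℂ_[p], (∀ α ∈ B, α ∈ M) → ∀ z : ℂ_[p], IsPrimitiveRoot z (p ^ n) →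
        FiniteDimensional M M⟮z⟯ ∧ Module.finrank M M⟮z⟯ ≤ D)
    (A : Multiset ℂ) (hA : rp A = PowerSeries.map (Int.castRingHom ℂ) f) :
    FiniteDimensional ℚ (IntermediateField.adjoin ℚ {α : ℂ | α ∈ A}) ∧
    FiniteDimensional ℚ (IntermediateField.adjoin ℚ ({α : ℂ | α ∈ A} ∪ {w : ℂ | w ^ p ^ n = 1})) ∧
    Module.finrank ℚ (IntermediateField.adjoin ℚ ({α : ℂ | α ∈ A} ∪ {w : ℂ | w ^ p ^ n = 1})) ≤
      D * Module.finrank ℚ (IntermediateField.adjoin ℚ {α : ℂ | α ∈ A}) ∧
    Nat.totient (p ^ n) ≤ D * Module.finrank ℚ (IntermediateField.adjoin ℚ {α : ℂ | α ∈ A}) := by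
  classical
  have hp : p.Prime := Fact.out
  have hne : NeZero (p ^ n) := ⟨pow_ne_zero _ hp.ne_zero⟩
  have hAint := isIntegral_of_rp A f hA
  have hUint : ∀ w ∈ {w : ℂ | w ^ p ^ n = 1}, IsIntegral ℚ w := by
    intro w hw
    refine ⟨Polynomial.X ^ p ^ n - Polynomial.C 1,
      Polynomial.monic_X_pow_sub_C 1 hne.out, ?_⟩
    simp only [Set.mem_ofPred_eq] at hw
    simp [hw]
  have hAfin : Set.Finite {α : ℂ | α ∈ A} :=
    A.toFinset.finite_toSet.subset (fun x hx => by simpa using hx)
  have hUfin : Set.Finite {w : ℂ | w ^ p ^ n = 1} := by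
    have h1 : (Polynomial.X ^ p ^ n - Polynomial.C 1 : Polynomial ℂ) ≠ 0 :=
      (Polynomial.monic_X_pow_sub_C 1 hne.out).ne_zero
    refine (Polynomial.rootSet_finite (Polynomial.X ^ p ^ n - Polynomial.C 1 : Polynomial ℂ) ℂ).subset ?_
    intro w hw
    rw [Polynomial.mem_rootSet]
    refine ⟨h1, ?_⟩
    simp only [Set.mem_ofPred_eq] at hw
    simp [hw]
  set T := IntermediateField.adjoin ℚ ({α : ℂ | α ∈ A} ∪ {w : ℂ | w ^ p ^ n = 1}) with hT
  have hTfd : FiniteDimensional ℚ T := by
    have : Finite ↑({α : ℂ | α ∈ A} ∪ {w : ℂ | w ^ p ^ n = 1}) := (hAfin.union hUfin).to_subtype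
    apply IntermediateField.finiteDimensional_adjoin
    rintro x (hx | hx)
    · exact hAint x hx
    · exact hUint x hx
  have hS1fd : FiniteDimensional ℚ (IntermediateField.adjoin ℚ {α : ℂ | α ∈ A}) := by
    have : Finite ↑({α : ℂ | α ∈ A}) := hAfin.to_subtype
    exact IntermediateField.finiteDimensional_adjoin (fun x hx => hAint x hx)
  have hTalg : Algebra.IsAlgebraic ℚ T := Algebra.IsAlgebraic.of_finite ℚ T
  let φ : T →ₐ[ℚ] ℂ_[p] := IsAlgClosed.lift
  let ψ : T →ₐ[ℚ] ℂ := T.val
  have hmemA : ∀ α ∈ A, α ∈ T := fun α hα => IntermediateField.subset_adjoin _ _ (Or.inl hα)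
  let A' : Multiset T := A.pmap (fun α h => (⟨α, h⟩ : T)) hmemA
  have hA'ψ : A'.map ψ = A := by
    rw [Multiset.map_pmap]
    show Multiset.pmap (fun a h => a) A hmemA = A
    rw [Multiset.pmap_eq_map, Multiset.map_id']
  have hfT : PowerSeries.map (Int.castRingHom T) f = rp A' := by
    apply map_injective_ps (ψ : T →+* ℂ)
    rw [map_map_int, map_rp]
    have : A'.map (ψ : T →+* ℂ) = A := hA'ψ
    rw [this, hA]
  set B : Multiset ℂ_[p] := A'.map φ with hB
  have hfB : PowerSeries.map (Int.castRingHom ℂ_[p]) f = recipProd B := by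
    rw [← map_map_int (φ : T →+* ℂ_[p]) f, hfT, map_rp]
    rfl
  let L1 : IntermediateField ℚ T := IntermediateField.adjoin ℚ {α : T | α ∈ A'}
  let M : IntermediateField ℚ ℂ_[p] := L1.map φ
  have hBM : ∀ β ∈ B, β ∈ M := by
    intro β hβ
    rw [hB, Multiset.mem_map] at hβ
    obtain ⟨α, hα, rfl⟩ := hβ
    exact ⟨α, IntermediateField.subset_adjoin _ _ hα, rfl⟩
  obtain ⟨ζ, hζ⟩ : ∃ ζ : ℂ, IsPrimitiveRoot ζ (p ^ n) := ⟨_, Complex.isPrimitiveRoot_exp _ hne.out⟩
  have hζT : ζ ∈ T := IntermediateField.subset_adjoin _ _ (Or.inr hζ.pow_eq_one)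
  have hζ' : IsPrimitiveRoot (⟨ζ, hζT⟩ : T) (p ^ n) :=
    IsPrimitiveRoot.of_map_of_injective (f := ψ) hζ ψ.injective
  have hz : IsPrimitiveRoot (φ ⟨ζ, hζT⟩) (p ^ n) := hζ'.map_of_injective φ.injective
  set z := φ ⟨ζ, hζT⟩ with hzdef
  obtain ⟨hfd, hD⟩ := hf B hfB M hBM z hz
  have hMfd : FiniteDimensional ℚ M := by
    have : FiniteDimensional ℚ L1 := inferInstance
    exact LinearEquiv.finiteDimensional (IntermediateField.equivMap L1 φ).toLinearEquiv
  let N : IntermediateField ℚ ℂ_[p] := M⟮z⟯.restrictScalars ℚ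
  obtain ⟨hNfd, hNrank⟩ : FiniteDimensional ℚ N ∧
    Module.finrank ℚ N = Module.finrank ℚ M * Module.finrank M M⟮z⟯ := finrank_restrict M z
  have hMN : ∀ x ∈ M, x ∈ N := by
    intro x hx
    show x ∈ M⟮z⟯
    exact M⟮z⟯.algebraMap_mem ⟨x, hx⟩
  have hzN : z ∈ N := by
    show z ∈ M⟮z⟯
    exact IntermediateField.mem_adjoin_simple_self M z
  have hrange : ∀ t : T, φ t ∈ N := by
    have hle : T ≤ (N.comap φ).map ψ := by
      refine IntermediateField.adjoin_le_iff.2 ?_
      rintro x (hx | hx)
      · refine ⟨⟨x, hmemA x hx⟩, ?_, rfl⟩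
        show φ ⟨x, hmemA x hx⟩ ∈ N
        apply hMN
        apply hBM
        rw [hB]
        apply Multiset.mem_map_of_mem
        rw [Multiset.mem_pmap]
        exact ⟨x, hx, rfl⟩
      · have hxT : x ∈ T := IntermediateField.subset_adjoin _ _ (Or.inr hx)
        refine ⟨⟨x, hxT⟩, ?_, rfl⟩
        show φ ⟨x, hxT⟩ ∈ N
        have h1 : (φ ⟨x, hxT⟩) ^ p ^ n = 1 := by
          rw [← map_pow, ← map_one φ]
          congr 1
          apply Subtype.ext
          exact hx
        obtain ⟨i, _, hi⟩ := hz.eq_pow_of_pow_eq_one h1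
        rw [← hi]
        exact N.pow_mem hzN i
    intro t
    obtain ⟨s, hs, hst⟩ := hle t.2
    have : s = t := ψ.injective hst
    rw [← this]
    exact hs
  have hTN : Module.finrank ℚ T ≤ Module.finrank ℚ N := by
    exact finrank_le_of_maps φ N hrange
  have hL1M : Module.finrank ℚ M = Module.finrank ℚ L1 :=
    (IntermediateField.equivMap L1 φ).toLinearEquiv.finrank_eq.symm
  have hL1ψ : L1.map ψ = IntermediateField.adjoin ℚ {α : ℂ | α ∈ A} := by
    rw [IntermediateField.adjoin_map]
    congr 1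
    ext x
    simp only [Set.mem_image, Set.mem_ofPred_eq]
    constructor
    · rintro ⟨y, hy, rfl⟩
      rw [← hA'ψ]
      exact Multiset.mem_map_of_mem _ hy
    · intro hx
      rw [← hA'ψ, Multiset.mem_map] at hx
      exact hx
  have hL1 : Module.finrank ℚ L1 = Module.finrank ℚ (IntermediateField.adjoin ℚ {α : ℂ | α ∈ A}) := by
    rw [← hL1ψ]
    exact (IntermediateField.equivMap L1 ψ).toLinearEquiv.finrank_eq
  have hmain : Module.finrank ℚ T ≤
      D * Module.finrank ℚ (IntermediateField.adjoin ℚ {α : ℂ | α ∈ A}) := by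
    refine hTN.trans ?_
    rw [hNrank, hL1M, hL1, mul_comm]
    exact Nat.mul_le_mul_right _ hD
  refine ⟨hS1fd, hTfd, hmain, ?_⟩
  refine le_trans ?_ hmain
  have h1 : Module.finrank ℚ ℚ⟮ζ⟯ = Nat.totient (p ^ n) := by
    rw [IntermediateField.adjoin.finrank (hUint ζ hζ.pow_eq_one)]
    rw [← Polynomial.cyclotomic_eq_minpoly_rat hζ (Nat.pos_of_ne_zero hne.out),
      Polynomial.natDegree_cyclotomic]
  rw [← h1]
  have h2 : ℚ⟮ζ⟯ ≤ T := by
    rw [IntermediateField.adjoin_simple_le_iff]
    exact hζT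
  exact LinearMap.finrank_le_finrank_of_injective (f := (IntermediateField.inclusion h2).toLinearMap)
    (IntermediateField.inclusion h2).injective

end Pool.Agent.W90.ZT
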